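import Pool.Agent.Lib.MP_3a3582_co.FixedRank

set_option autoImplicit false

namespace Pool.Agent.Results.MP_3a3582_co.FixedRank

open Pool.Agent.Lib.MP_3a3582_co

/-- Let `G = ℤ/n_1 × ⋯ × ℤ/n_r` and `N = n_1 ⋯ n_r`.
(1) If `N ≥ (1 + 256 r n_j ^ (-1/(r+4))) 2 ^ ⌊log₂ N⌋` for some `j`, then `tau G = ⌊log₂ N⌋`.
(2) For every `r` there are positive `C`, `c` such that `tau G = ⌊log₂ N⌋` as soon as
`N ≥ (1 + C N ^ (-c)) 2 ^ ⌊log₂ N⌋`. -/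
theorem result :
    (∀ (r : ℕ) (n : Fin r → ℕ), (∀ i, 0 < n i) → ∀ j : Fin r,
      (1 + 256 * r * (n j : ℝ) ^ (-(1 / ((r : ℝ) + 4)))) * 2 ^ Nat.log 2 (∏ i, n i) ≤
        ((∏ i, n i : ℕ) : ℝ) →
      tau (∀ i, ZMod (n i)) = Nat.log 2 (∏ i, n i)) ∧
    (∀ r : ℕ, ∃ C c : ℝ, 0 < C ∧ 0 < c ∧ ∀ n : Fin r → ℕ, (∀ i, 0 < n i) →
      (1 + C * ((∏ i, n i : ℕ) : ℝ) ^ (-c)) * 2 ^ Nat.log 2 (∏ i, n i) ≤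
        ((∏ i, n i : ℕ) : ℝ) →
      tau (∀ i, ZMod (n i)) = Nat.log 2 (∏ i, n i)) :=
  ⟨fun r n hn j h => uniform r n hn j h, fixed_rank⟩

end Pool.Agent.Results.MP_3a3582_co.FixedRank
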