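import Pool.Agent.Lib.MP_3a3582_co.Cor

set_option autoImplicit false

namespace Pool.Agent.Results.MP_3a3582_co.NearPowers

open Pool.Agent.Lib.MP_3a3582_co

/-- Let `p` be an odd prime.
(1) If the finite abelian group `G` maps onto `(ℤ/p)²`, then
`|G| ≥ 2 ^ m + 2 ^ ⌈m/(p+1)⌉` for `m = tau G`.
(2) If `p` divides `n₁` and `n₂` and `2 ^ m ≤ n₁ n₂ < 2 ^ m + 2 ^ ⌈m/(p+1)⌉`, then
`tau (ℤ/n₁ × ℤ/n₂) = m - 1`.
(3) `tau (ℤ/3 × ℤ/((2 ^ m + 1)/3)) = m - 1` for all `m = 6 k + 3`. -/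
theorem result :
    (∀ (p : ℕ), p.Prime → p ≠ 2 → ∀ (G : Type) [AddCommGroup G] [Finite G]
      (v : G →+ ZMod p × ZMod p), Function.Surjective v →
      2 ^ tau G + 2 ^ ((tau G + p) / (p + 1)) ≤ Nat.card G) ∧
    (∀ p n₁ n₂ m : ℕ, p.Prime → p ≠ 2 → p ∣ n₁ → p ∣ n₂ → 0 < n₁ → 0 < n₂ →
      2 ^ m ≤ n₁ * n₂ → n₁ * n₂ < 2 ^ m + 2 ^ ((m + p) / (p + 1)) →
      tau (ZMod n₁ × ZMod n₂) = m - 1) ∧
    (∀ k : ℕ, tau (ZMod 3 × ZMod ((2 ^ (6 * k + 3) + 1) / 3)) = 6 * k + 2) := by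
  refine ⟨?_, ?_, family_three⟩
  · intro p hp hp2 G _ _ v hv
    have : Fact p.Prime := ⟨hp⟩
    exact near_bound hp2 v hv _ le_rfl
  · intro p n₁ n₂ m hp hp2 h1 h2 hn1 hn2 h3 h4
    exact near_two p n₁ n₂ m hp hp2 h1 h2 hn1 hn2 h3 h4

end Pool.Agent.Results.MP_3a3582_co.NearPowers
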