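import Pool.Agent.Lib.MP_3a3582_co.Cor

set_option autoImplicit false

namespace Pool.Agent.Results.MP_3a3582_co.OddExponent

open Pool.Agent.Lib.MP_3a3582_co

/-- (1) If `e ≥ 3` is odd and `e x = 0` for all `x` in the finite abelian group `G`, then
`(1 + 1 / cos (π / e)) ^ tau G ≤ |G|`.
(2) `tau ((ℤ/5) ^ r) = 2 r` for every `r`. -/
theorem result :
    (∀ (G : Type) [AddCommGroup G] [Finite G] (e : ℕ), Odd e → 3 ≤ e → (∀ x : G, e • x = 0) →
      (1 + 1 / Real.cos (Real.pi / e)) ^ tau G ≤ Nat.card G) ∧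
    (∀ r : ℕ, tau (Fin r → ZMod 5) = 2 * r) :=
  ⟨fun G _ _ e he he3 hG => odd_exponent G e he he3 hG, tau_five⟩

end Pool.Agent.Results.MP_3a3582_co.OddExponent
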