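import Pool.Agent.Lib.MP_3a3582_co.TernFinal

set_option autoImplicit false

namespace Pool.Agent.Results.MP_3a3582_co.TernaryPart

open Pool.Agent.Lib.MP_3a3582_co

/-- (1) Let `p ≠ 3` be a prime, `H = ∏ ℤ/p^(e i)`, `d = ∑ (p^(e i) - 1)` and
`t = tau (H × (ℤ/3)^b)`. Then `3 ^ t ≤ 3 ^ b ∑_{j ≤ d} (t choose j) 2 ^ j`.
(2) `|tau ((ℤ/2)^a × (ℤ/3)^b) - b - a log₃ (b/a)| ≤ 3 a` for `1 ≤ a ≤ b`.
(3) `tau (ℤ/2 × (ℤ/3)^b) = b + k` for the largest `k` with `3 ^ k ≤ 2 (b + k) + 1`. -/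
theorem result :
    (∀ p : ℕ, p.Prime → p ≠ 3 → ∀ (r : ℕ) (e : Fin r → ℕ) (b : ℕ),
      3 ^ tau ((∀ i, ZMod (p ^ e i)) × (Fin b → ZMod 3)) ≤
        3 ^ b * ∑ j ∈ Finset.range (∑ i, (p ^ e i - 1) + 1),
          (tau ((∀ i, ZMod (p ^ e i)) × (Fin b → ZMod 3))).choose j * 2 ^ j) ∧
    (∀ a b : ℕ, 1 ≤ a → a ≤ b →
      |(tau ((Fin a → ZMod 2) × (Fin b → ZMod 3)) : ℝ) - b - a * Real.logb 3 ((b : ℝ) / a)| ≤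
        3 * a) ∧
    (∀ b : ℕ, ∃ k, 3 ^ k ≤ 2 * (b + k) + 1 ∧ 2 * (b + k + 1) + 1 < 3 ^ (k + 1) ∧
      tau (ZMod 2 × (Fin b → ZMod 3)) = b + k) :=
  ⟨fun p hp hp3 _ e b => upper_bound p hp hp3 e b, tau_six, tau_two_three'⟩

end Pool.Agent.Results.MP_3a3582_co.TernaryPart
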